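import Mathlib

open Subgroup

namespace Pool.Agent.Results.MP_2b7cf0_al.PowerCommuting

universe u v

/-- The power graph of a group: distinct `x, y` are adjacent when one of them is a power of the
other. -/
def powerGraph (G : Type u) [Group G] : SimpleGraph G where
  Adj x y := x ≠ y ∧ ((∃ m : ℤ, x = y ^ m) ∨ ∃ m : ℤ, y = x ^ m)
  symm := ⟨fun _ _ h => ⟨h.1.symm, h.2.symm⟩⟩
  loopless := ⟨fun _ h => h.1 rfl⟩

/-- The commuting graph of a group: distinct `x, y` are adjacent when they commute. -/
def commutingGraph (G : Type u) [Group G] : SimpleGraph G where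
  Adj x y := x ≠ y ∧ x * y = y * x
  symm := ⟨fun _ _ h => ⟨h.1.symm, h.2.symm⟩⟩
  loopless := ⟨fun _ h => h.1 rfl⟩

section aux

variable {G : Type u} [Group G]

/-- one of `x`, `y` is a power of the other -/
def R (x y : G) : Prop := x ∈ zpowers y ∨ y ∈ zpowers x

theorem R_symm {x y : G} (h : R x y) : R y x := h.symm

theorem R_commute {x y : G} (h : R x y) : Commute x y := by
  rcases h with ⟨m, rfl⟩ | ⟨m, rfl⟩
  · exact (Commute.refl y).zpow_left m
  · exact (Commute.refl x).zpow_right m

theorem R_one (x : G) : R x 1 := Or.inr (one_mem _)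

/-- all element orders are prime powers -/
def EPPO (G : Type u) [Group G] : Prop :=
  ∀ (g : G) (p q : ℕ), p.Prime → q.Prime → p ∣ orderOf g → q ∣ orderOf g → p = q

variable [Finite G]

theorem mem_zpowers_pow {u x : G} {p : ℕ} (hp : p.Prime) (hx : x ∈ zpowers u)
    (hxp : orderOf x = p) : zpowers x = zpowers (u ^ (orderOf u / p)) := by
  have hpos : 0 < orderOf u := orderOf_pos u
  have hdvd : p ∣ orderOf u := by
    rw [← hxp]
    exact orderOf_dvd_of_mem_zpowers hx
  have h1 : x ∈ zpowers (u ^ (orderOf u / p)) := by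
    obtain ⟨i, hi⟩ := hx
    have hi' : u ^ i = x := hi
    have h2 : u ^ (i * p) = 1 := by
      rw [zpow_mul, hi', zpow_natCast, ← hxp, pow_orderOf_eq_one]
    rw [← orderOf_dvd_iff_zpow_eq_one] at h2
    obtain ⟨t, ht⟩ := h2
    obtain ⟨s, hs⟩ := hdvd
    have hp0 : (p : ℤ) ≠ 0 := by exact_mod_cast hp.ne_zero
    have hi2 : i = s * t := by
      have : (p : ℤ) * i = p * (s * t) := by
        rw [mul_comm, ht, hs]; push_cast; ring
      exact mul_left_cancel₀ hp0 this
    refine ⟨t, ?_⟩
    change (u ^ (orderOf u / p)) ^ t = x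
    rw [hs, Nat.mul_div_cancel_left _ hp.pos, ← hi', hi2, zpow_mul, zpow_natCast]
  apply Subgroup.eq_of_le_of_card_ge
  · rwa [zpowers_le]
  · rw [Nat.card_zpowers, Nat.card_zpowers, hxp, orderOf_pow_orderOf_div hpos.ne' hdvd]

theorem exists_prime_order {u : G} (hu : u ≠ 1) :
    ∃ (p : ℕ) (x : G), p.Prime ∧ x ∈ zpowers u ∧ orderOf x = p := by
  have h1 : orderOf u ≠ 1 := fun h => hu (orderOf_eq_one_iff.mp h)
  obtain ⟨p, hp, hd⟩ := Nat.exists_prime_and_dvd h1
  exact ⟨p, u ^ (orderOf u / p), hp, pow_mem (mem_zpowers u) _,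
    orderOf_pow_orderOf_div (orderOf_pos u).ne' hd⟩

theorem dvd_of_mem {u x : G} (h : x ∈ zpowers u) : orderOf x ∣ orderOf u :=
  orderOf_dvd_of_mem_zpowers h

/-- the chain lemma -/
theorem chain (hE : EPPO G) {x u v : G} {p : ℕ} (hp : p.Prime) (hx : orderOf x = p)
    (hxu : x ∈ zpowers u) (huv : R u v) (hv : v ≠ 1) : x ∈ zpowers v := by
  rcases huv with h | h
  · exact (zpowers_le.mpr h) hxu
  · obtain ⟨q, w, hq, hwv, hwq⟩ := exists_prime_order hv
    have hwu : w ∈ zpowers u := (zpowers_le.mpr h) hwv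
    have hpq : p = q := hE u p q hp hq (hx ▸ dvd_of_mem hxu) (hwq ▸ dvd_of_mem hwu)
    subst hpq
    have h1 : zpowers x = zpowers w :=
      (mem_zpowers_pow hp hxu hx).trans (mem_zpowers_pow hp hwu hwq).symm
    have h2 : x ∈ zpowers w := h1 ▸ mem_zpowers x
    exact (zpowers_le.mpr hwv) h2

theorem R_of_mem_of_prime {x u : G} {p : ℕ} (hp : p.Prime) (hx : orderOf x = p) (hu : u ≠ 1)
    (h : R x u) : x ∈ zpowers u := by
  rcases h with h | h
  · exact h
  · have h1 : orderOf u ∣ p := hx ▸ dvd_of_mem h
    have h2 : orderOf u = p := by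
      rcases (Nat.dvd_prime hp).mp h1 with h3 | h3
      · exact absurd (orderOf_eq_one_iff.mp h3) hu
      · exact h3
    have h4 : zpowers u = zpowers x := by
      apply Subgroup.eq_of_le_of_card_ge
      · rwa [zpowers_le]
      · rw [Nat.card_zpowers, Nat.card_zpowers, hx, h2]
    rw [h4]; exact mem_zpowers x

end aux

section main

variable {G : Type u} {H : Type v} [Group G] [Group H] [Finite G] [Finite H]
  (f : G ≃ H) (hf : ∀ x y, R x y ↔ Commute (f x) (f y))

include hf

theorem card_K (x : G) : Nat.card {z // R x z} = Nat.card (centralizer ({f x} : Set H)) := by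
  refine Nat.card_congr (f.subtypeEquiv fun z => ?_)
  rw [hf, mem_centralizer_singleton_iff]
  exact eq_comm

theorem card_KK (x y : G) :
    Nat.card {z // R x z ∧ R y z} = Nat.card (centralizer ({f x, f y} : Set H)) := by
  refine Nat.card_congr (f.subtypeEquiv fun z => ?_)
  rw [hf, hf, mem_centralizer_iff]
  simp only [Set.mem_insert_iff, Set.mem_singleton_iff, forall_eq_or_imp, forall_eq]
  rfl

theorem step1 (x : G) (hx : ∀ z, x ∈ zpowers z → z ∈ zpowers x) (p : ℕ) (hp : p.Prime)
    (hpx : p ∣ orderOf x) (z : G) (hz : z ∈ zpowers x) (hz1 : z ≠ 1) :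
    x ^ (orderOf x / p) ∈ zpowers z := by
  by_contra hnot
  set n := orderOf x with hn
  have hnpos : 0 < n := orderOf_pos x
  set y := x ^ (n / p) with hy
  have hyp : orderOf y = p := orderOf_pow_orderOf_div hnpos.ne' hpx
  have hyx : y ∈ zpowers x := pow_mem (mem_zpowers x) _
  have hRx : ∀ w, R x w ↔ w ∈ zpowers x := fun w =>
    ⟨fun h => h.elim (hx w) id, fun h => Or.inr h⟩
  have hRyz : ¬ R y z := fun h => hnot (R_of_mem_of_prime hp hyp hz1 h)
  -- the two centralizers
  have hle : centralizer ({f x, f y} : Set H) ≤ centralizer ({f x} : Set H) :=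
    centralizer_le (by simp)
  have hne : ¬ centralizer ({f x} : Set H) ≤ centralizer ({f x, f y} : Set H) := by
    intro h
    have h1 : f z ∈ centralizer ({f x} : Set H) := by
      rw [mem_centralizer_singleton_iff]
      exact ((hf x z).mp ((hRx z).mpr hz)).symm
    have h2 := h h1
    rw [mem_centralizer_iff] at h2
    exact hRyz ((hf y z).mpr (h2 (f y) (by simp)))
  have hcard : 2 * Nat.card (centralizer ({f x, f y} : Set H)) ≤
      Nat.card (centralizer ({f x} : Set H)) := by
    obtain ⟨k, hk⟩ := Subgroup.card_dvd_of_le hle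
    have hpos : 0 < Nat.card (centralizer ({f x} : Set H)) := Nat.card_pos
    have hpos2 : 0 < Nat.card (centralizer ({f x, f y} : Set H)) := Nat.card_pos
    have hk2 : 2 ≤ k := by
      by_contra hk2
      have hk3 : k = 0 ∨ k = 1 := by omega
      rcases hk3 with rfl | rfl
      · omega
      · rw [mul_one] at hk
        exact hne (Subgroup.eq_of_le_of_card_ge hle hk.le).ge
    rw [hk, mul_comm]
    exact Nat.mul_le_mul_left _ hk2
  rw [← card_K f hf, ← card_KK f hf] at hcard
  have hK : Nat.card {w // R x w} = n := by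
    rw [hn, ← Nat.card_zpowers]
    exact Nat.card_congr (Equiv.subtypeEquivRight hRx)
  -- counting
  have hT : orderOf (x ^ p) = n / p := orderOf_pow_of_dvd hp.ne_zero hpx
  have hsub : (zpowers x : Set G) ⊆ {w | R x w ∧ R y w} ∪ ((zpowers (x ^ p) : Set G) \ {1}) := by
    intro w hw
    by_cases hyw : R y w
    · exact Or.inl ⟨(hRx w).mpr hw, hyw⟩
    · refine Or.inr ⟨?_, fun h => hyw (h ▸ R_one y)⟩
      obtain ⟨k, rfl⟩ := hw
      change x ^ k ∈ zpowers (x ^ p)
      by_cases hpk : (p : ℤ) ∣ k
      · obtain ⟨j, rfl⟩ := hpk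
        exact ⟨j, by rw [zpow_mul, zpow_natCast]⟩
      · exfalso
        apply hyw
        left
        have hcop : IsCoprime k (p : ℤ) :=
          ((Nat.prime_iff_prime_int.mp hp).coprime_iff_not_dvd.mpr hpk).symm
        obtain ⟨a, b, hab⟩ := hcop
        obtain ⟨s, hs⟩ := hpx
        refine ⟨a * s, ?_⟩
        change (x ^ k) ^ (a * s) = y
        have e1 : k * (a * s) = s + n * (-b * 1) := by
          rw [hs]; push_cast
          linear_combination (s : ℤ) * hab
        rw [hy, hs, Nat.mul_div_cancel_left _ hp.pos, ← zpow_mul, e1, zpow_add, zpow_mul,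
          zpow_natCast x n, hn, pow_orderOf_eq_one, one_zpow, mul_one, zpow_natCast]
  have h1 : (zpowers x : Set G).ncard ≤
      ({w | R x w ∧ R y w} : Set G).ncard + ((zpowers (x ^ p) : Set G) \ {1}).ncard :=
    (Set.ncard_le_ncard hsub (Set.toFinite _)).trans (Set.ncard_union_le _ _)
  have h2 : (zpowers x : Set G).ncard = n := Nat.card_zpowers x
  have h3 : ((zpowers (x ^ p) : Set G) \ {1}).ncard + 1 = n / p := by
    rw [Set.ncard_sdiff_singleton_add_one (one_mem (zpowers (x ^ p))) (Set.toFinite _), ← hT]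
    exact Nat.card_zpowers _
  have h4 : ({w | R x w ∧ R y w} : Set G).ncard = Nat.card {w // R x w ∧ R y w} := rfl
  have h5 : n / p ≤ n / 2 := Nat.div_le_div_left hp.two_le (by norm_num)
  omega

theorem eppo : EPPO G := by
  intro g p q hp hq hpg hqg
  obtain ⟨x, hxg, hxmax⟩ := Set.Finite.exists_maximalFor (fun x : G => orderOf x)
    {x : G | g ∈ zpowers x} (Set.toFinite _) ⟨g, mem_zpowers g⟩
  have hmax : ∀ z, x ∈ zpowers z → z ∈ zpowers x := by
    intro z hz
    have h1 : zpowers x ≤ zpowers z := zpowers_le.mpr hz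
    have h2 : orderOf x ≤ orderOf z := Nat.le_of_dvd (orderOf_pos z) (dvd_of_mem hz)
    have h3 : orderOf z ≤ orderOf x := hxmax (h1 hxg) h2
    have h4 : zpowers x = zpowers z := by
      apply Subgroup.eq_of_le_of_card_ge h1
      rwa [Nat.card_zpowers, Nat.card_zpowers]
    rw [h4]; exact mem_zpowers z
  have hgx : orderOf g ∣ orderOf x := dvd_of_mem hxg
  have hpx := hpg.trans hgx
  have hqx := hqg.trans hgx
  have hz : orderOf (x ^ (orderOf x / q)) = q := orderOf_pow_orderOf_div (orderOf_pos x).ne' hqx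
  have hz1 : x ^ (orderOf x / q) ≠ 1 := by
    intro h
    rw [h, orderOf_one] at hz
    exact hq.one_lt.ne hz
  have h5 := step1 f hf x hmax p hp hpx _ (pow_mem (mem_zpowers x) _) hz1
  have h6 := dvd_of_mem h5
  rw [hz, orderOf_pow_orderOf_div (orderOf_pos x).ne' hpx] at h6
  exact (Nat.prime_dvd_prime_iff_eq hp hq).mp h6

omit hf [Finite H] [Group H] in
theorem step2 (hE : EPPO G) (x : G) (p : ℕ) (hp : p.Prime) (hx : orderOf x = p) :
    p ∣ Nat.card {z // R x z} := by
  classical
  have hx1 : x ≠ 1 := by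
    rintro rfl
    rw [orderOf_one] at hx
    exact hp.one_lt.ne hx
  have hmul : ∀ z, R x z → R x (z * x) := by
    intro z hz
    rcases hz with h | h
    · by_cases h1 : z * x = 1
      · rw [h1]; exact R_one x
      · left
        exact chain hE hp hx h (Or.inr (mul_mem (mem_zpowers z) h)) h1
    · right
      exact mul_mem h (mem_zpowers x)
  have : Fact p.Prime := ⟨hp⟩
  have : Fintype {z // R x z} := Fintype.ofFinite _
  let σ : Function.End {z // R x z} := fun z => ⟨z.1 * x, hmul z.1 z.2⟩
  have hσ : ∀ (k : ℕ) (z : {z // R x z}), ((σ ^ k) z).1 = z.1 * x ^ k := by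
    intro k
    induction k with
    | zero => intro z; rw [pow_zero, pow_zero, mul_one]; rfl
    | succ k ih =>
      intro z
      rw [pow_succ]
      change ((σ ^ k) (σ z)).1 = _
      rw [ih]
      change z.1 * x * x ^ k = _
      rw [mul_assoc, ← pow_succ']
  have hσp : σ ^ p ^ 1 = 1 := by
    funext z
    apply Subtype.ext
    rw [hσ, pow_one, ← hx, pow_orderOf_eq_one, mul_one]
    rfl
  have hmod := Equiv.Perm.card_fixedPoints_modEq hσp
  have hempty : IsEmpty (Function.fixedPoints σ) := by
    refine ⟨fun z => ?_⟩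
    have h1 := congrArg Subtype.val z.2
    have h2 : z.1.1 * x = z.1.1 := h1
    exact hx1 (by simpa using h2)
  have h0 : Fintype.card (Function.fixedPoints σ) = 0 := Fintype.card_eq_zero
  rw [h0] at hmod
  rw [Nat.card_eq_fintype_card]
  exact (Nat.modEq_zero_iff_dvd).mp hmod

theorem step3 (hE : EPPO G) (x : G) (p : ℕ) (hp : p.Prime) (hx : orderOf x = p) (z : G)
    (hz : Commute x z) : R x z := by
  classical
  have : Fact p.Prime := ⟨hp⟩
  have hx1 : x ≠ 1 := by
    rintro rfl
    rw [orderOf_one] at hx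
    exact hp.one_lt.ne hx
  by_cases huniv : ∃ u : G, u ≠ 1 ∧ ∀ w, R u w
  · obtain ⟨u, hu, hall⟩ := huniv
    have hxu : x ∈ zpowers u := R_of_mem_of_prime hp hx hu (R_symm (hall x))
    by_cases hz1 : z = 1
    · rw [hz1]; exact R_one x
    · exact Or.inl (chain hE hp hx hxu (hall z) hz1)
  · push Not at huniv
    have hf1 : f.symm 1 = 1 := by
      by_contra hne
      obtain ⟨w, hw⟩ := huniv _ hne
      apply hw
      rw [hf, f.apply_symm_apply]
      exact Commute.one_left _
    have hsymm1 : ∀ r : H, r ≠ 1 → f.symm r ≠ 1 := by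
      intro r hr h
      rw [← hf1] at h
      exact hr (f.symm.injective h)
    -- an element of order `p` commuting with `f x`
    have hpC : p ∣ Nat.card (centralizer ({f x} : Set H)) := by
      rw [← card_K f hf]
      exact step2 hE x p hp hx
    obtain ⟨c, hc⟩ := exists_prime_orderOf_dvd_card' p hpC
    have hcR : R x (f.symm c.1) := by
      rw [hf, f.apply_symm_apply]
      exact ((mem_centralizer_singleton_iff.mp c.2)).symm
    have hc1 : (c : H) ≠ 1 := by
      intro h
      have h2 : c = 1 := Subtype.ext h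
      rw [h2, orderOf_one] at hc
      exact hp.one_lt.ne hc
    have hcz : IsPGroup p (zpowers (c : H)) := by
      have h1 : Nat.card (zpowers (c : H)) = p ^ 1 := by
        rw [Nat.card_zpowers, orderOf_coe, hc, pow_one]
      exact IsPGroup.of_card h1
    obtain ⟨Q, hQ⟩ := hcz.exists_le_sylow
    have hcQ : (c : H) ∈ Q := hQ (mem_zpowers _)
    have hnt : Nontrivial Q := ⟨⟨⟨c, hcQ⟩, 1, fun h => hc1 (congrArg Subtype.val h)⟩⟩
    have hcen := Q.isPGroup'.center_nontrivial
    obtain ⟨w, hw⟩ := exists_ne (1 : center Q)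
    have hw1 : ((w : Q) : H) ≠ 1 := fun h => hw (Subtype.ext (Subtype.ext h))
    have hwcomm : ∀ r ∈ Q, Commute ((w : Q) : H) r := by
      intro r hr
      have h1 := mem_center_iff.mp w.2 ⟨r, hr⟩
      exact (congrArg Subtype.val h1).symm
    have hxc : x ∈ zpowers (f.symm c) :=
      chain hE hp hx (mem_zpowers x) hcR (hsymm1 _ hc1)
    have hxw : x ∈ zpowers (f.symm ((w : Q) : H)) := by
      refine chain hE hp hx hxc ?_ (hsymm1 _ hw1)
      rw [hf, f.apply_symm_apply, f.apply_symm_apply]
      exact (hwcomm _ hcQ).symm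
    have hQK : ∀ r ∈ Q, R x (f.symm r) := by
      intro r hr
      by_cases hr1 : r = 1
      · rw [hr1, hf1]; exact R_one x
      · left
        refine chain hE hp hx hxw ?_ (hsymm1 _ hr1)
        rw [hf, f.apply_symm_apply, f.apply_symm_apply]
        exact hwcomm _ hr
    -- sizes
    have hKC : ({w | R x w} : Set G) ⊆ (centralizer ({x} : Set G) : Set G) := by
      intro g hg
      rw [SetLike.mem_coe, mem_centralizer_singleton_iff]
      exact (R_commute hg).symm
    have hQle : Nat.card Q ≤ ({w | R x w} : Set G).ncard := by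
      have h1 : (f.symm '' (Q : Set H)).ncard ≤ ({w | R x w} : Set G).ncard := by
        apply Set.ncard_le_ncard _ (Set.toFinite _)
        rintro _ ⟨r, hr, rfl⟩
        exact hQK r hr
      rwa [Set.ncard_image_of_injective _ f.symm.injective] at h1
    have hCle : Nat.card (centralizer ({x} : Set G)) ≤ Nat.card Q := by
      have hpow : ∃ k, Nat.card (centralizer ({x} : Set G)) = p ^ k := by
        refine ⟨_, Nat.eq_prime_pow_of_unique_prime_dvd (Nat.card_pos).ne' ?_⟩
        intro q hq hqd
        have : Fact q.Prime := ⟨hq⟩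
        obtain ⟨g, hg⟩ := exists_prime_orderOf_dvd_card' q hqd
        by_contra hqp
        have hgx : Commute (g : G) x := mem_centralizer_singleton_iff.mp g.2
        have hgo : orderOf (g : G) = q := by rw [orderOf_coe, hg]
        have hcop : Nat.Coprime (orderOf (g : G)) (orderOf x) := by
          rw [hgo, hx]; exact (Nat.coprime_primes hq hp).mpr hqp
        have ho := hgx.orderOf_mul_eq_mul_orderOf_of_coprime hcop
        rw [hgo, hx] at ho
        exact hqp (hE _ q p hq hp (ho ▸ dvd_mul_right q p) (ho ▸ dvd_mul_left p q))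
      obtain ⟨k, hk⟩ := hpow
      have hcardeq : Nat.card G = Nat.card H := Nat.card_congr f
      rw [Q.card_eq_multiplicity, hk]
      apply Nat.pow_le_pow_right hp.pos
      have h1 : p ^ k ∣ Nat.card H := by
        rw [← hk, ← hcardeq]; exact Subgroup.card_subgroup_dvd_card _
      exact (hp.pow_dvd_iff_le_factorization (Nat.card_pos).ne').mp h1
    have heq : ({w | R x w} : Set G) = (centralizer ({x} : Set G) : Set G) :=
      Set.eq_of_subset_of_ncard_le hKC (hCle.trans hQle) (Set.toFinite _)
    have hzc : z ∈ (centralizer ({x} : Set G) : Set G) := by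
      rw [SetLike.mem_coe, mem_centralizer_singleton_iff]
      exact hz.symm
    rw [← heq] at hzc
    exact hzc

end main

theorem step4 {G : Type u} [Group G] [Finite G] (hE : EPPO G)
    (h : ∀ (x : G) (p : ℕ), p.Prime → orderOf x = p → ∀ z, Commute x z → R x z) (a b : G)
    (hab : Commute a b) : R a b := by
  have key : ∀ (p : ℕ), p.Prime → ∀ (i j : ℕ) (a b : G), Commute a b → orderOf a = p ^ i →
      orderOf b = p ^ j → i ≤ j → a ∈ zpowers b := by
    intro p hp i
    induction i with
    | zero =>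
      intro j a b _ ha _ _
      rw [pow_zero, orderOf_eq_one_iff] at ha
      rw [ha]; exact one_mem _
    | succ i ih =>
      intro j a b hab ha hb hij
      obtain ⟨j, rfl⟩ : ∃ j', j = j' + 1 := ⟨j - 1, by omega⟩
      have ha' : orderOf (a ^ p) = p ^ i := by
        rw [orderOf_pow_of_dvd hp.ne_zero (ha ▸ dvd_pow_self p (by omega)), ha, pow_succ,
          Nat.mul_div_cancel _ hp.pos]
      have hb' : orderOf (b ^ p) = p ^ j := by
        rw [orderOf_pow_of_dvd hp.ne_zero (hb ▸ dvd_pow_self p (by omega)), hb, pow_succ,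
          Nat.mul_div_cancel _ hp.pos]
      obtain ⟨k, hk⟩ := ih j (a ^ p) (b ^ p) ((hab.pow_left p).pow_right p) ha' hb' (by omega)
      have hk' : (b ^ p) ^ k = a ^ p := hk
      set g := a * (b ^ k)⁻¹ with hg
      have hcomm : Commute a (b ^ k)⁻¹ := (hab.zpow_right k).inv_right
      have hgp : g ^ p = 1 := by
        rw [hg, hcomm.mul_pow, inv_pow, ← zpow_natCast (b ^ k), ← zpow_mul, mul_comm k, zpow_mul,
          zpow_natCast, hk', mul_inv_cancel]
      -- the element of order `p` in `zpowers b`
      have hb1 : b ≠ 1 := by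
        rintro rfl
        rw [orderOf_one] at hb
        exact (Nat.one_lt_pow (by omega) hp.one_lt).ne hb
      obtain ⟨q, x, hq, hxb, hxq⟩ := exists_prime_order hb1
      have hgx : Commute x g := by
        obtain ⟨m, rfl⟩ := hxb
        refine Commute.zpow_left ?_ m
        exact (hab.symm).mul_right (((Commute.refl b).zpow_right k).inv_right)
      have hRxg := h x q hq hxq g hgx
      have hgb : g ∈ zpowers b := by
        by_cases hg1 : g = 1
        · rw [hg1]; exact one_mem _
        · have hxg : x ∈ zpowers g := R_of_mem_of_prime hq hxq hg1 hRxg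
          have : Fact p.Prime := ⟨hp⟩
          have hgo : orderOf g = p := orderOf_eq_prime hgp hg1
          have hqp : q = p := by
            have := dvd_of_mem hxg
            rw [hxq, hgo] at this
            exact (Nat.prime_dvd_prime_iff_eq hq hp).mp this
          have : zpowers x = zpowers g := by
            apply Subgroup.eq_of_le_of_card_ge (zpowers_le.mpr hxg)
            rw [Nat.card_zpowers, Nat.card_zpowers, hxq, hgo, hqp]
          have hgx' : g ∈ zpowers x := this ▸ mem_zpowers g
          exact (zpowers_le.mpr hxb) hgx'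
      have : a = g * b ^ k := by rw [hg, inv_mul_cancel_right]
      rw [this]
      exact mul_mem hgb (zpow_mem (mem_zpowers b) k)
  by_cases ha1 : a = 1
  · rw [ha1]; exact R_symm (R_one b)
  by_cases hb1 : b = 1
  · rw [hb1]; exact R_one a
  obtain ⟨p, x, hp, hxa, hxp⟩ := exists_prime_order ha1
  have hxb : Commute x b := by
    obtain ⟨m, rfl⟩ := hxa
    exact hab.zpow_left m
  have hxb' : x ∈ zpowers b := R_of_mem_of_prime hp hxp hb1 (h x p hp hxp b hxb)
  have hpa : ∃ i, orderOf a = p ^ i :=
    ⟨_, Nat.eq_prime_pow_of_unique_prime_dvd (orderOf_pos a).ne' fun {q} hq hqd =>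
      hE a q p hq hp hqd (hxp ▸ dvd_of_mem hxa)⟩
  have hpb : ∃ i, orderOf b = p ^ i :=
    ⟨_, Nat.eq_prime_pow_of_unique_prime_dvd (orderOf_pos b).ne' fun {q} hq hqd =>
      hE b q p hq hp hqd (hxp ▸ dvd_of_mem hxb')⟩
  obtain ⟨i, hi⟩ := hpa
  obtain ⟨j, hj⟩ := hpb
  rcases le_total i j with hij | hij
  · exact Or.inl (key p hp i j a b hab hi hj hij)
  · exact Or.inr (key p hp j i b a hab.symm hj hi hij)

/-- If the power graph of a finite group `G` is isomorphic to the commuting graph of a finite
group `H`, then the power graph of `G` equals the commuting graph of `G`. -/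
theorem result (G : Type u) (H : Type v) [Group G] [Group H] [Finite G] [Finite H]
    (h : Nonempty (powerGraph G ≃g commutingGraph H)) : powerGraph G = commutingGraph G := by
  obtain ⟨e⟩ := h
  have hR : ∀ x y : G, R x y ↔ (∃ m : ℤ, x = y ^ m) ∨ ∃ m : ℤ, y = x ^ m := by
    intro x y
    unfold R
    rw [mem_zpowers_iff, mem_zpowers_iff]
    simp only [eq_comm]
  have hf : ∀ x y, R x y ↔ Commute (e x) (e y) := by
    intro x y
    by_cases hxy : x = y
    · subst hxy
      exact ⟨fun _ => Commute.refl _, fun _ => Or.inl (mem_zpowers x)⟩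
    · have h1 : (powerGraph G).Adj x y ↔ (commutingGraph H).Adj (e x) (e y) :=
        e.map_adj_iff.symm
      have h2 : (powerGraph G).Adj x y ↔ R x y := by
        rw [hR]
        exact ⟨fun h => h.2, fun h => ⟨hxy, h⟩⟩
      have h3 : (commutingGraph H).Adj (e x) (e y) ↔ Commute (e x) (e y) :=
        ⟨fun h => h.2, fun h => ⟨fun h' => hxy (e.injective h'), h⟩⟩
      rw [← h2, h1, h3]
  have hE := eppo e.toEquiv hf
  have h4 := step4 hE (fun x p hp hx z hz => step3 e.toEquiv hf hE x p hp hx z hz)
  ext x y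
  constructor
  · rintro ⟨hne, h⟩
    exact ⟨hne, R_commute ((hR x y).mpr h)⟩
  · rintro ⟨hne, h⟩
    exact ⟨hne, (hR x y).mp (h4 x y h)⟩

end Pool.Agent.Results.MP_2b7cf0_al.PowerCommuting
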